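import Pool.Agent.Q204.CD.Lin
import Pool.Agent.Q253.Cov.Pig

/-!
# Almost primes between the squares of consecutive primes: one common difference for many intervals

Any number of intervals `(p_n ^ 2, p_(n+1) ^ 2)`, with any moduli and reduced classes and any finite colourings, contain progressions of
length `k` with ONE common difference (apart from the moduli), of one colour, the terms of which all have the same number `≤ 3` of
prime factors.

The joint sifting system of several windows, with shifts chosen by averaging, is reduced to Szemerédi's theorem relative to sifted sets.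
Libraries (starting files): `Y882.KW` (weighted linear sieve), `Y843.HS.fin` (Szemerédi relative to sifted sets), `H177R2.SD.Avg`.
-/

set_option autoImplicit false

namespace Pool.Agent.Results.MP_739ba1_nt.CommonDifferences

open Finset Filter
open Pool.Agent.Q253.Cov (GLn pigeon)
open Pool.Agent.Q204.CD (lin_sim)

open Classical in
/-- the `j` with `A < j ≤ A + H` for which `q j + a ≥ 2` has at most `r` prime factors (with multiplicity), all at least `z` -/
noncomputable def AlmostPrimes (r : ℕ) (z : ℝ) (q a A H : ℕ) : Finset ℕ :=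
  (Ioc A (A + H)).filter (fun j => 2 ≤ q * j + a ∧ (q * j + a).primeFactorsList.length ≤ r ∧
    ∀ p : ℕ, p.Prime → p ∣ q * j + a → z ≤ p)

lemma al_eq (r : ℕ) (z : ℝ) (q a A H : ℕ) : AlmostPrimes r z q a A H = GLn r z q a A H := by
  unfold AlmostPrimes GLn
  rfl

/-- the next prime after an odd prime -/
lemma next_prime {n : ℕ} (h : 3 ≤ Nat.nth Nat.Prime n) : Nat.nth Nat.Prime n + 2 ≤ Nat.nth Nat.Prime (n + 1) := by
  have h1 : Nat.nth Nat.Prime n < Nat.nth Nat.Prime (n + 1) :=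
    Nat.nth_strictMono Nat.infinite_setOfPred_prime (Nat.lt_succ_self n)
  have h2 : Odd (Nat.nth Nat.Prime n) := (Nat.prime_nth_prime n).odd_of_ne_two (by omega)
  have h3 : Odd (Nat.nth Nat.Prime (n + 1)) := (Nat.prime_nth_prime (n + 1)).odd_of_ne_two (by omega)
  obtain ⟨u, hu⟩ := h2
  obtain ⟨v, hv⟩ := h3
  omega

/-- **Common differences between the squares of consecutive primes.** (1) Let `h ≤ 1` and `25 < 3 (8 r - 1) h`. For all `m`, `k` and
`ε > 0` there is `D` such that for all large `X`, all `H ≥ X ^ h` and ANY `m` windows of `H` consecutive terms below `X` of progressions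
`a i` modulo `q i`, `(a i, q i) = 1`, any subsets `S i` of the numbers with at most `r` prime factors, all `≥ X ^ (h / 5)`, in these
windows, of relative density at least `ε`, contain progressions of length `k` with ONE common difference `q i * d`,
`1 ≤ d ≤ log ^ D X`. (2) Let `λ ≥ 1`, `κ ≥ 0` and `50 λ < 3 (8 r - 1) (1 - κ)` (`r = 3`: `κ = 0`, `λ < 1.38` or `λ = 1`, `κ < 0.275`).
For all `m, k, c` there is `D` such that for all large `N`, all primes `p_(n_1), ..., p_(n_m)` in `[N, N ^ λ]`, all moduli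
`q_1, ..., q_m ≤ N ^ κ`, reduced classes `a_i` modulo `q_i` and colourings `χ_i` of the integers with `c` colours there is ONE
`d ≤ log ^ D N` such that each interval `(p_(n_i) ^ 2, p_(n_i + 1) ^ 2)` contains a progression of length `k` and difference `d q_i` in
the class `a_i` modulo `q_i`, of one colour, the terms of which have the same number `s_i ≤ r` of prime factors (with
multiplicity), all prime factors being at least `N ^ ((1 - κ) / 6)`. -/
theorem result :
    (∀ (r : ℕ) (h : ℝ), h ≤ 1 → 1 ≤ r → 25 < 3 * (8 * (r : ℝ) - 1) * h → ∀ (m k : ℕ) (ε : ℝ), 0 < ε →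
      ∃ D X₀ : ℕ, ∀ X : ℕ, X₀ ≤ X → ∀ H : ℕ, (X : ℝ) ^ h ≤ H → ∀ q a A : Fin m → ℕ,
      (∀ i, 1 ≤ q i ∧ Nat.Coprime (a i) (q i) ∧ q i * (A i + H) + a i ≤ X) →
      ∀ S : Fin m → Finset ℕ, (∀ i, S i ⊆ AlmostPrimes r ((X : ℝ) ^ (h / 5)) (q i) (a i) (A i) H ∧
        ε * ((AlmostPrimes r ((X : ℝ) ^ (h / 5)) (q i) (a i) (A i) H).card : ℝ) ≤ (S i).card) →
      ∃ d : ℕ, 1 ≤ d ∧ (d : ℝ) ≤ Real.log X ^ D ∧ ∃ j : Fin m → ℕ, ∀ i, ∀ l < k, j i + l * d ∈ S i) ∧
    (∀ (r : ℕ) (lam κ : ℝ), 1 ≤ r → 1 ≤ lam → 0 ≤ κ → 50 * lam < 3 * (8 * (r : ℝ) - 1) * (1 - κ) → ∀ m k c : ℕ,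
      ∃ D N₀ : ℕ, ∀ N : ℕ, N₀ ≤ N → ∀ n q a : Fin m → ℕ,
      (∀ i, N ≤ Nat.nth Nat.Prime (n i) ∧ (Nat.nth Nat.Prime (n i) : ℝ) ≤ (N : ℝ) ^ lam ∧ 1 ≤ q i ∧ (q i : ℝ) ≤ (N : ℝ) ^ κ ∧
        Nat.Coprime (a i) (q i)) →
      ∀ χ : Fin m → ℕ → Fin c, ∃ d : ℕ, 1 ≤ d ∧ (d : ℝ) ≤ Real.log N ^ D ∧ ∀ i, ∃ b s : ℕ, ∃ e : Fin c, 1 ≤ s ∧ s ≤ r ∧
        b ≡ a i [MOD q i] ∧ ∀ l < k,
          (Nat.nth Nat.Prime (n i)) ^ 2 < b + l * (d * q i) ∧ b + l * (d * q i) < (Nat.nth Nat.Prime (n i + 1)) ^ 2 ∧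
          (b + l * (d * q i)).primeFactorsList.length = s ∧ χ i (b + l * (d * q i)) = e ∧
          ∀ p : ℕ, p.Prime → p ∣ b + l * (d * q i) → (N : ℝ) ^ ((1 - κ) / 6) ≤ p) := by
  classical
  refine ⟨?_, ?_⟩
  · intro r h hh hr1 hr m k ε hε
    obtain ⟨D, X₀, H1⟩ := lin_sim r h hh hr1 hr m k ε hε
    refine ⟨D, X₀, ?_⟩
    intro X hX H hH q a A hqa S hS
    exact H1 X hX H hH q a A hqa S (fun i => (hS i).1) (fun i => (hS i).2)
  · intro r lam κ hr1 hlam hκ hr m k c
    have hr1r : (1 : ℝ) ≤ r := by exact_mod_cast hr1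
    have h8 : (0 : ℝ) < 3 * (8 * (r : ℝ) - 1) := by linarith
    have hκ1 : 0 < 1 - κ := by
      by_contra hcon
      push Not at hcon
      nlinarith
    have hκ1' : 1 - κ ≤ 1 := by linarith
    -- the exponent
    obtain ⟨h₀, hh₀⟩ : ∃ h₀ : ℝ, h₀ = 25 / (3 * (8 * r - 1)) := ⟨_, rfl⟩
    obtain ⟨h₁, hh₁⟩ : ∃ h₁ : ℝ, h₁ = (1 - κ) / (2 * lam) := ⟨_, rfl⟩
    have hh₀0 : 0 < h₀ := by rw [hh₀]; positivity
    have h01 : h₀ < h₁ := by
      rw [hh₀, hh₁, div_lt_div_iff₀ h8 (by positivity)]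
      nlinarith
    have hh₁1 : h₁ ≤ 1 := by
      rw [hh₁, div_le_one (by positivity)]
      linarith
    have hlh : lam * h₁ = (1 - κ) / 2 := by
      rw [hh₁]
      field_simp
    obtain ⟨h, hh⟩ : ∃ h, h = max ((h₀ + h₁) / 2) (11 / 12 * h₁) := ⟨_, rfl⟩
    have hha : (h₀ + h₁) / 2 ≤ h := by rw [hh]; exact le_max_left _ _
    have hhb : 11 / 12 * h₁ ≤ h := by rw [hh]; exact le_max_right _ _
    have hh1 : h < h₁ := by
      rw [hh]
      apply max_lt <;> linarith
    have hh0 : 0 < h := by linarith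
    have hcond : 25 < 3 * (8 * (r : ℝ) - 1) * h := by
      have h2 : h₀ < h := by linarith
      rw [hh₀, div_lt_iff₀ h8] at h2
      linarith
    obtain ⟨D, X₀, H1⟩ := lin_sim r h (by linarith) hr1 hcond m k (1 / ((r * c : ℕ) + 1 : ℝ)) (by positivity)
    -- eventual inequalities
    have hgap : 0 < 1 - κ - 2 * lam * h := by nlinarith
    have ev1 : ∀ᶠ N : ℕ in atTop, (10 : ℝ) ^ h * 2 ≤ (N : ℝ) ^ (1 - κ - 2 * lam * h) :=
      ((tendsto_rpow_atTop hgap).comp tendsto_natCast_atTop_atTop).eventually_ge_atTop _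
    have ev2 : ∀ᶠ N : ℕ in atTop, max (3 + 2 * lam) 2 ≤ Real.log N :=
      (Real.tendsto_log_atTop.comp tendsto_natCast_atTop_atTop).eventually_ge_atTop _
    have ev3 : ∀ᶠ N : ℕ in atTop, (2 : ℝ) ≤ (N : ℝ) ^ (1 - κ) :=
      ((tendsto_rpow_atTop hκ1).comp tendsto_natCast_atTop_atTop).eventually_ge_atTop _
    obtain ⟨N₁, hN₁⟩ := eventually_atTop.1 (ev1.and (ev2.and ev3))
    refine ⟨2 * D, max (max N₁ X₀) 3, ?_⟩
    intro N hN n q a hnq χ
    obtain ⟨g1, g2, g3⟩ := hN₁ N (((le_max_left _ _).trans (le_max_left _ _)).trans hN)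
    have hNX₀ : X₀ ≤ N := ((le_max_right _ _).trans (le_max_left _ _)).trans hN
    have hN3 : 3 ≤ N := (le_max_right _ _).trans hN
    have hNr : (3 : ℝ) ≤ N := by exact_mod_cast hN3
    have hN0 : (0 : ℝ) < N := by linarith
    have hN1 : (1 : ℝ) ≤ N := by linarith
    have g2a : 3 + 2 * lam ≤ Real.log N := (le_max_left _ _).trans g2
    have g2b : 2 ≤ Real.log N := (le_max_right _ _).trans g2
    obtain ⟨H, hH⟩ : ∃ H : ℕ, H = ⌊(N : ℝ) ^ (1 - κ)⌋₊ := ⟨_, rfl⟩
    have hHle : (H : ℝ) ≤ (N : ℝ) ^ (1 - κ) := by rw [hH]; exact Nat.floor_le (by positivity)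
    have hHge : (N : ℝ) ^ (1 - κ) / 2 ≤ H := by
      have h1 := Nat.lt_floor_add_one ((N : ℝ) ^ (1 - κ))
      rw [← hH] at h1
      linarith
    obtain ⟨X, hX⟩ : ∃ X : ℕ, X = ⌈9 * (N : ℝ) ^ (2 * lam)⌉₊ := ⟨_, rfl⟩
    have hXge : 9 * (N : ℝ) ^ (2 * lam) ≤ X := by rw [hX]; exact Nat.le_ceil _
    have hNl1 : (1 : ℝ) ≤ (N : ℝ) ^ (2 * lam) := Real.one_le_rpow hN1 (by positivity)
    have hXle : (X : ℝ) ≤ 10 * (N : ℝ) ^ (2 * lam) := by
      have h1 := Nat.ceil_lt_add_one (show 0 ≤ 9 * (N : ℝ) ^ (2 * lam) by positivity)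
      rw [← hX] at h1
      linarith
    have hNl : (N : ℝ) ≤ (N : ℝ) ^ (2 * lam) := by
      calc (N : ℝ) = (N : ℝ) ^ (1 : ℝ) := (Real.rpow_one _).symm
        _ ≤ _ := Real.rpow_le_rpow_of_exponent_le hN1 (by linarith)
    have hNX : N ≤ X := by
      have : (N : ℝ) ≤ X := by linarith
      exact_mod_cast this
    have hX0 : (0 : ℝ) < X := by linarith
    have hXH : (X : ℝ) ^ h ≤ H := by
      refine le_trans ?_ hHge
      calc (X : ℝ) ^ h ≤ (10 * (N : ℝ) ^ (2 * lam)) ^ h := Real.rpow_le_rpow hX0.le hXle hh0.le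
        _ = (10 : ℝ) ^ h * (N : ℝ) ^ (2 * lam * h) := by
            rw [Real.mul_rpow (by norm_num) (by positivity), ← Real.rpow_mul hN0.le]
        _ = ((10 : ℝ) ^ h * 2) * (N : ℝ) ^ (2 * lam * h) / 2 := by ring
        _ ≤ (N : ℝ) ^ (1 - κ - 2 * lam * h) * (N : ℝ) ^ (2 * lam * h) / 2 := by gcongr
        _ = (N : ℝ) ^ (1 - κ) / 2 := by
            rw [← Real.rpow_add hN0]
            congr 2
            ring
    -- the windows
    have hwin : ∀ i, ∀ j : ℕ, (Nat.nth Nat.Prime (n i)) ^ 2 / q i < j → j ≤ (Nat.nth Nat.Prime (n i)) ^ 2 / q i + H →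
        (Nat.nth Nat.Prime (n i)) ^ 2 < q i * j + a i % q i ∧ q i * j + a i % q i < (Nat.nth Nat.Prime (n i) + 2) ^ 2 := by
      intro i j h1 h2
      obtain ⟨e1, e2, e3, e4, e5⟩ := hnq i
      obtain ⟨P, hP⟩ : ∃ P, P = Nat.nth Nat.Prime (n i) := ⟨_, rfl⟩
      rw [← hP] at e1 e2 h1 h2 ⊢
      have hq0 : 0 < q i := e3
      have f1 : P ^ 2 < q i * (P ^ 2 / q i) + q i := Nat.lt_mul_div_succ (P ^ 2) hq0 |>.trans_eq (by ring)
      have f2 : q i * (P ^ 2 / q i) ≤ P ^ 2 := Nat.mul_div_le _ _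
      have f3 : a i % q i < q i := Nat.mod_lt _ hq0
      constructor
      · have f4 : q i * (P ^ 2 / q i + 1) ≤ q i * j := Nat.mul_le_mul_left _ h1
        have f5 : q i * (P ^ 2 / q i + 1) = q i * (P ^ 2 / q i) + q i := by ring
        omega
      · have f4 : q i * j ≤ q i * (P ^ 2 / q i + H) := Nat.mul_le_mul_left _ h2
        have f5 : q i * (P ^ 2 / q i + H) = q i * (P ^ 2 / q i) + q i * H := by ring
        have f6 : q i * H + q i ≤ 2 * P := by
          have f7 : ((q i : ℝ)) * H ≤ N := by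
            calc (q i : ℝ) * H ≤ (N : ℝ) ^ κ * (N : ℝ) ^ (1 - κ) := by gcongr
              _ = N := by
                  rw [← Real.rpow_add hN0]
                  simp
          have f8 : (q i : ℝ) ≤ N := by
            refine e4.trans ?_
            calc (N : ℝ) ^ κ ≤ (N : ℝ) ^ (1 : ℝ) := Real.rpow_le_rpow_of_exponent_le hN1 (by linarith)
              _ = N := Real.rpow_one _
          have f9 : q i * H ≤ N := by exact_mod_cast f7
          have f10 : q i ≤ N := by exact_mod_cast f8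
          omega
        have f7 : (P + 2) ^ 2 = P ^ 2 + 4 * P + 4 := by ring
        omega
    have hqa : ∀ i, 1 ≤ q i ∧ Nat.Coprime (a i % q i) (q i) ∧ q i * ((Nat.nth Nat.Prime (n i)) ^ 2 / q i + H) + a i % q i ≤ X := by
      intro i
      obtain ⟨e1, e2, e3, e4, e5⟩ := hnq i
      refine ⟨e3, ?_, ?_⟩
      · have : Nat.gcd (a i % q i) (q i) = Nat.gcd (a i) (q i) :=
          (Nat.gcd_rec (q i) (a i)).symm.trans (Nat.gcd_comm _ _)
        unfold Nat.Coprime
        rw [this]
        exact e5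
      · have hHpos : 1 ≤ H := by
          have : (1 : ℝ) ≤ H := by linarith
          exact_mod_cast this
        have f1 := (hwin i ((Nat.nth Nat.Prime (n i)) ^ 2 / q i + H) (by omega) le_rfl).2
        have f2 : (((Nat.nth Nat.Prime (n i) + 2) ^ 2 : ℕ) : ℝ) ≤ X := by
          refine le_trans ?_ hXge
          have f3 : (Nat.nth Nat.Prime (n i) : ℝ) + 2 ≤ 3 * (N : ℝ) ^ lam := by
            have f4 : (1 : ℝ) ≤ (N : ℝ) ^ lam := Real.one_le_rpow hN1 (by linarith)
            linarith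
          have f5 : ((N : ℝ) ^ lam) ^ 2 = (N : ℝ) ^ (2 * lam) := by
            rw [← Real.rpow_natCast, ← Real.rpow_mul hN0.le]
            congr 1
            push_cast
            ring
          push_cast
          calc ((Nat.nth Nat.Prime (n i) : ℝ) + 2) ^ 2 ≤ (3 * (N : ℝ) ^ lam) ^ 2 := pow_le_pow_left₀ (by positivity) f3 2
            _ = 9 * (N : ℝ) ^ (2 * lam) := by rw [mul_pow, f5]; norm_num
        have f3 : (Nat.nth Nat.Prime (n i) + 2) ^ 2 ≤ X := by exact_mod_cast f2
        omega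
    -- the colour classes
    obtain ⟨A, hA⟩ : ∃ A : Fin m → ℕ, A = fun i => (Nat.nth Nat.Prime (n i)) ^ 2 / q i := ⟨_, rfl⟩
    have hcls : ∀ i, ∃ se : ℕ × Fin c, 1 ≤ se.1 ∧ se.1 ≤ r ∧ 1 / ((r * c : ℕ) + 1 : ℝ) *
        ((GLn r ((X : ℝ) ^ (h / 5)) (q i) (a i % q i) (A i) H).card : ℝ) ≤
        (((GLn r ((X : ℝ) ^ (h / 5)) (q i) (a i % q i) (A i) H).filter (fun j =>
          ((q i * j + a i % q i).primeFactorsList.length, χ i (q i * j + a i % q i)) = se)).card : ℝ) := by
      intro i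
      have hc0 : 0 < c := by
        have := (χ i 0).2
        omega
      set G := GLn r ((X : ℝ) ^ (h / 5)) (q i) (a i % q i) (A i) H with hG
      obtain ⟨se, hse, hcard⟩ := pigeon G ((Icc 1 r) ×ˢ (univ : Finset (Fin c)))
        (fun j => ((q i * j + a i % q i).primeFactorsList.length, χ i (q i * j + a i % q i))) (by
          intro j hj
          rw [hG] at hj
          unfold GLn at hj
          rw [mem_filter] at hj
          rw [mem_product, mem_Icc]
          refine ⟨⟨?_, hj.2.2.1⟩, mem_univ _⟩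
          by_contra hcon
          have h3 : (q i * j + a i % q i).primeFactorsList.length = 0 := by omega
          have h4 := List.length_eq_zero_iff.1 h3
          rw [Nat.primeFactorsList_eq_nil] at h4
          have := hj.2.1
          omega) (by
          refine ⟨(1, ⟨0, hc0⟩), ?_⟩
          rw [mem_product, mem_Icc]
          exact ⟨⟨le_rfl, hr1⟩, mem_univ _⟩)
      rw [mem_product, mem_Icc] at hse
      refine ⟨se, hse.1.1, hse.1.2, le_trans ?_ hcard⟩
      apply mul_le_mul_of_nonneg_right _ (by positivity)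
      have h1 : ((Icc 1 r) ×ˢ (univ : Finset (Fin c))).card = r * c := by
        rw [card_product, Nat.card_Icc, card_univ, Fintype.card_fin, Nat.add_sub_cancel]
      rw [h1]
      apply one_div_le_one_div_of_le
      · have : 0 < r * c := Nat.mul_pos hr1 hc0
        exact_mod_cast this
      · linarith
    choose se hse1 hse2 hse3 using hcls
    obtain ⟨d, hd1, hd2, j, hj⟩ := H1 X (hNX₀.trans hNX) H hXH q (fun i => a i % q i) A (by
      intro i
      rw [hA]
      exact hqa i) (fun i => (GLn r ((X : ℝ) ^ (h / 5)) (q i) (a i % q i) (A i) H).filter (fun j =>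
          ((q i * j + a i % q i).primeFactorsList.length, χ i (q i * j + a i % q i)) = se i)) (fun i => filter_subset _ _) hse3
    refine ⟨d, hd1, hd2.trans ?_, ?_⟩
    · have h3 : Real.log X ≤ Real.log N ^ 2 := by
        have h4 := Real.log_le_log hX0 hXle
        rw [Real.log_mul (by norm_num) (by positivity), Real.log_rpow hN0] at h4
        have h5 : Real.log 10 ≤ 3 := by
          rw [Real.log_le_iff_le_exp (by norm_num)]
          have h7 : Real.exp 3 = Real.exp 1 ^ 3 := by rw [← Real.exp_nat_mul]; norm_num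
          rw [h7]
          have h8 := Real.exp_one_gt_d9
          calc (10 : ℝ) ≤ 2.7 ^ 3 := by norm_num
            _ ≤ Real.exp 1 ^ 3 := pow_le_pow_left₀ (by norm_num) (by linarith) 3
        have h6 : (3 : ℝ) ≤ 3 * Real.log N := by linarith
        calc Real.log X ≤ 3 + 2 * lam * Real.log N := by linarith
          _ ≤ (3 + 2 * lam) * Real.log N := by linarith
          _ ≤ Real.log N * Real.log N := mul_le_mul_of_nonneg_right g2a (by linarith)
          _ = _ := (sq _).symm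
      have hlX : 0 ≤ Real.log X := Real.log_nonneg (by linarith)
      calc Real.log X ^ D ≤ (Real.log N ^ 2) ^ D := pow_le_pow_left₀ hlX h3 D
        _ = _ := by rw [← pow_mul]
    · intro i
      refine ⟨q i * j i + a i % q i, (se i).1, (se i).2, hse1 i, hse2 i, ?_, ?_⟩
      · show (q i * j i + a i % q i) % q i = a i % q i
        rw [Nat.mul_add_mod, Nat.mod_mod]
      · intro l hl
        have h3 := hj i l hl
        have e1 : q i * j i + a i % q i + l * (d * q i) = q i * (j i + l * d) + a i % q i := by ring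
        rw [e1]
        rw [mem_filter] at h3
        obtain ⟨h4, h5⟩ := h3
        unfold GLn at h4
        rw [mem_filter, mem_Ioc] at h4
        have h6 := h4.1
        rw [hA] at h6
        have h7 := hwin i (j i + l * d) h6.1 h6.2
        have h8 : 3 ≤ Nat.nth Nat.Prime (n i) := hN3.trans (hnq i).1
        have h9 := next_prime h8
        have h10 : (Nat.nth Nat.Prime (n i) + 2) ^ 2 ≤ (Nat.nth Nat.Prime (n i + 1)) ^ 2 := Nat.pow_le_pow_left h9 2
        refine ⟨h7.1, by omega, congrArg Prod.fst h5, congrArg Prod.snd h5, ?_⟩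
        intro p hp hpd
        refine le_trans ?_ (h4.2.2.2 p hp hpd)
        have h11 : (N : ℝ) ^ (2 * lam) ≤ X := by linarith
        calc (N : ℝ) ^ ((1 - κ) / 6) ≤ (N : ℝ) ^ (2 * lam * (h / 5)) := by
              apply Real.rpow_le_rpow_of_exponent_le hN1
              have h12 : lam * (11 / 12 * h₁) ≤ lam * h := mul_le_mul_of_nonneg_left hhb (by linarith)
              linarith
          _ = ((N : ℝ) ^ (2 * lam)) ^ (h / 5) := by rw [Real.rpow_mul hN0.le]
          _ ≤ _ := Real.rpow_le_rpow (by positivity) h11 (by positivity)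

end Pool.Agent.Results.MP_739ba1_nt.CommonDifferences
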