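import Pool.Agent.Q106.BR.Det

/-!
# Primes between the squares of consecutive primes, in Cramér's random model

`A` is Cramér's random model of the primes: the events `n ∈ A`, `n ≥ 3`, are independent with the probabilities
`1 / log n`. Let `a_0 < a_1 < ...` be its elements, `g_n = a_{n+1} - a_n`, and let `N(n)` be the number of the elements of
`A` strictly between `a_n²` and `a_{n+1}²` (Brocard's problem: `N(n) ≥ 4`). Put

* `β_n = g_n / log² a_n` (Cramér's normalisation of the gap),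
* `D_n = (N(n) - g_n a_n / log a_n) / √(2 g_n a_n)`.

Almost surely the set of the limit points of the pairs `(β_n, D_n)` is exactly the region `0 ≤ β`, `β + D² ≤ 1`
(and no pair goes off to infinity). For each fixed gap `g`, the set of the limit points of `D_n` along the `n` with
`g_n = g` is exactly `[-1, 1]`. In particular `N(n) log a_n / a_n - g_n → 0`, so `N(n) ≥ 4` for all large `n`.
-/

set_option autoImplicit false

namespace Pool.Agent.Results.MP_739ba1_nt.GapAndCountLaw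

open Finset MeasureTheory Filter Pool.Agent.Q120.MF Pool.Agent.Q106.BR
open Pool.Agent.Q120.AD (hl)
open scoped Topology

/-- The law. `el S n = a_n`, `gp S n = g_n`, `NB S n = N(n)`, `bt S n = β_n`, `dv S n = D_n`. -/
structure Law (S : Set ℕ) : Prop where
  infinite : S.Infinite
  /-- Nothing beyond the parabola. -/
  upper : ∀ ε : ℝ, 0 < ε → ∀ᶠ n : ℕ in atTop, bt S n + dv S n ^ 2 ≤ 1 + ε
  /-- All limit points of the pairs. -/
  region : ∀ β c : ℝ, MapClusterPt (β, c) atTop (fun n => (bt S n, dv S n)) ↔ 0 ≤ β ∧ β + c ^ 2 ≤ 1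
  /-- All limit points of the deviations along the gaps of length `g`. -/
  fixed : ∀ g : ℕ, 1 ≤ g → ∀ c : ℝ, MapClusterPt c (atTop ⊓ 𝓟 {n | gp S n = g}) (dv S) ↔ |c| ≤ 1
  /-- The number of elements between the squares determines the gap. -/
  count : Tendsto (fun n : ℕ => (NB S n : ℝ) * Real.log (el S n) / el S n - gp S n) atTop (𝓝 0)
  /-- Brocard's inequality for all large `n`. -/
  brocard : ∀ᶠ n : ℕ in atTop, 4 ≤ NB S n

/-- The facts which hold almost surely for countably many reasons. -/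
structure Facts (S : Set ℕ) : Prop where
  up : ∀ k : ℕ, ∀ᶠ m : ℕ in atTop, ∀ g : ℕ, 1 ≤ g → Emp S m g → g / Real.log m ^ 2 + dvn S m g ^ 2 ≤ 1 + 1 / ((k : ℝ) + 1)
  low : ∀ (β c : ℚ) (k : ℕ), 0 ≤ β → (β : ℝ) + (c : ℝ) ^ 2 < 1 → ∀ᶠ i : ℕ in atTop, ∃ m, 2 ^ i ≤ m ∧ m < 2 * 2 ^ i ∧
    Cons S m (Gb β (2 ^ i)) ∧ |dvn S m (Gb β (2 ^ i)) - c| ≤ 1 / ((k : ℝ) + 1)
  fix : ∀ (g : ℕ) (c : ℚ) (k : ℕ), 1 ≤ g → (c : ℝ) ^ 2 < 1 → ∀ᶠ i : ℕ in atTop, ∃ m, 2 ^ i ≤ m ∧ m < 2 * 2 ^ i ∧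
    Cons S m g ∧ |dvn S m g - c| ≤ 1 / ((k : ℝ) + 1)

/-- A rational approximation from inside. -/
theorem exists_rat_near {c ε : ℝ} (hε : 0 < ε) : ∃ q : ℚ, |(q : ℝ) - c| ≤ ε ∧ |(q : ℝ)| ≤ |c| ∧ (c ≠ 0 → |(q : ℝ)| < |c|) := by
  rcases lt_trichotomy c 0 with h | h | h
  · obtain ⟨q, h1, h2⟩ := exists_rat_btwn (show c < min (c + ε) 0 by rw [lt_min_iff]; constructor <;> linarith)
    rw [lt_min_iff] at h2
    have h3 : |(q : ℝ)| < |c| := by
      rw [abs_of_neg h2.2, abs_of_neg h]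
      linarith
    refine ⟨q, ?_, h3.le, fun _ => h3⟩
    rw [abs_le]
    constructor <;> linarith [h2.1]
  · refine ⟨0, ?_, ?_, fun hc => absurd h hc⟩
    · rw [h]
      simpa using hε.le
    · rw [h]
      simp
  · obtain ⟨q, h1, h2⟩ := exists_rat_btwn (show max (c - ε) 0 < c by rw [max_lt_iff]; constructor <;> linarith)
    rw [max_lt_iff] at h1
    have h3 : |(q : ℝ)| < |c| := by
      rw [abs_of_pos h1.2, abs_of_pos h]
      exact h2
    refine ⟨q, ?_, h3.le, fun _ => h3⟩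
    rw [abs_le]
    constructor <;> linarith [h1.1]

/-- From the facts to the law. -/
theorem law_of_facts {S : Set ℕ} (h : Facts S) : Law S := by
  -- infinitely many elements
  have hinf : S.Infinite := by
    rw [Set.infinite_iff_exists_gt]
    intro a
    obtain ⟨i₀, hi₀⟩ := eventually_atTop.1 (h.fix 1 0 0 le_rfl (by norm_num))
    obtain ⟨m, h1, _, h2, _⟩ := hi₀ (max i₀ a) (le_max_left _ _)
    refine ⟨m, h2.1, ?_⟩
    have e1 : a < 2 ^ a := Nat.lt_two_pow_self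
    have e2 : 2 ^ a ≤ 2 ^ max i₀ a := Nat.pow_le_pow_right (by norm_num) (le_max_right _ _)
    omega
  have hel := el_top hinf
  have hlog : Tendsto (fun n => Real.log (el S n : ℝ)) atTop atTop := hl.comp hel
  have hup : ∀ ε : ℝ, 0 < ε → ∀ᶠ n : ℕ in atTop, bt S n + dv S n ^ 2 ≤ 1 + ε := by
    intro ε hε
    obtain ⟨k, hk⟩ := exists_nat_one_div_lt hε
    filter_upwards [hel.eventually (h.up k)] with n hn
    have h1 := hn (gp S n) (gp_pos hinf n) (emp_el hinf n)
    rw [← dv_eq hinf] at h1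
    unfold bt
    linarith
  have hbt : ∀ n, 0 ≤ bt S n := fun n => by
    unfold bt
    positivity
  have hfreq : ∀ (β c : ℝ), 0 ≤ β → β + c ^ 2 ≤ 1 → ∀ ε : ℝ, 0 < ε →
      ∃ᶠ n in atTop, |bt S n - β| ≤ ε ∧ |dv S n - c| ≤ ε := by
    intro β c hβ hβc ε hε
    obtain ⟨c', hc1, hc2, hc3⟩ := exists_rat_near (c := c) (show 0 < ε / 2 by linarith)
    obtain ⟨β', hb1, hb2, hb3⟩ := exists_rat_near (c := β) (show 0 < ε / 2 by linarith)
    have hβ'β : |(|(β' : ℝ)|) - β| ≤ ε / 2 := by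
      rcases le_total 0 (β' : ℝ) with h1 | h1
      · rwa [abs_of_nonneg h1]
      · rw [abs_of_nonneg hβ] at hb2
        rw [abs_le] at hb1 ⊢
        have := neg_abs_le (β' : ℝ)
        rw [abs_of_nonpos h1] at hb2 ⊢
        constructor <;> linarith [hb1.1]
    have hcast : ((|β'| : ℚ) : ℝ) = |(β' : ℝ)| := by push_cast; rfl
    have hlt : ((|β'| : ℚ) : ℝ) + (c' : ℝ) ^ 2 < 1 := by
      rw [hcast]
      have e1 : (c' : ℝ) ^ 2 ≤ c ^ 2 := sq_le_sq.2 hc2
      rw [abs_of_nonneg hβ] at hb2 hb3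
      by_cases h0 : β = 0
      · by_cases hc0 : c = 0
        · rw [h0] at hb2
          rw [hc0] at e1
          norm_num at e1
          have := le_antisymm hb2 (abs_nonneg _)
          rw [this, e1]
          norm_num
        · have e2 : (c' : ℝ) ^ 2 < c ^ 2 := sq_lt_sq.2 (hc3 hc0)
          linarith
      · have := hb3 h0
        linarith
    obtain ⟨k, hk⟩ := exists_nat_one_div_lt (show 0 < ε / 2 by linarith)
    refine freq_of (P := fun m g => |(g : ℝ) / Real.log m ^ 2 - β| ≤ ε ∧ |dvn S m g - c| ≤ ε) hinf ?_ |>.mono ?_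
    · have h2 : Tendsto (fun i : ℕ => 2 ^ i) atTop atTop := tendsto_pow_atTop_atTop_of_one_lt (by norm_num)
      filter_upwards [h.low |β'| c' k (abs_nonneg _) hlt,
        h2.eventually (Gb_near (β := ((|β'| : ℚ) : ℝ)) (by rw [hcast]; exact abs_nonneg _) (show 0 < ε / 2 by linarith))] with i h3 h4
      obtain ⟨m, e1, e2, e3, e4⟩ := h3
      refine ⟨m, Gb ((|β'| : ℚ) : ℝ) (2 ^ i), e1, ?_, e3, ?_, ?_⟩
      · unfold Gb
        omega
      · have e5 := h4 m e1 e2
        rw [hcast] at e5 ⊢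
        rw [abs_le] at e5 hβ'β ⊢
        constructor <;> linarith [e5.1, e5.2, hβ'β.1, hβ'β.2]
      · rw [abs_le] at e4 hc1 ⊢
        constructor <;> linarith [e4.1, e4.2, hc1.1, hc1.2]
    · rintro n ⟨e1, e2⟩
      rw [← dv_eq hinf] at e2
      exact ⟨e1, e2⟩
  -- the bounds used at the end
  have hbd : ∀ᶠ n : ℕ in atTop, |dv S n| ≤ 2 ∧ (gp S n : ℝ) ≤ 2 * Real.log (el S n) ^ 2 ∧ 1 ≤ Real.log (el S n : ℝ) := by
    filter_upwards [hup 1 one_pos, hlog.eventually_ge_atTop 1] with n h1 h2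
    refine ⟨?_, ?_, h2⟩
    · rw [← abs_of_pos (show (0 : ℝ) < 2 by norm_num), ← sq_le_sq]
      have := hbt n
      linarith
    · have e1 : bt S n ≤ 2 := by
        have := sq_nonneg (dv S n)
        linarith
      unfold bt at e1
      rwa [div_le_iff₀ (by positivity)] at e1
  have hnum : ∀ᶠ n : ℕ in atTop, (NB S n : ℝ) = gp S n * el S n / Real.log (el S n) + dv S n * √(2 * gp S n * el S n) := by
    filter_upwards [hbd] with n hn
    have hg := gp_pos hinf n
    have hg' : (0 : ℝ) < gp S n := by exact_mod_cast hg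
    have he : (0 : ℝ) < el S n := by
      by_contra hcon
      push Not at hcon
      have : (el S n : ℝ) = 0 := le_antisymm hcon (Nat.cast_nonneg _)
      have h3 := hn.2.2
      rw [this, Real.log_zero] at h3
      linarith
    have hs : 0 < √(2 * gp S n * el S n) := Real.sqrt_pos.2 (by positivity)
    unfold dv
    rw [div_mul_cancel₀ _ hs.ne']
    ring
  refine ⟨hinf, hup, ?_, ?_, ?_, ?_⟩
  · intro β c
    rw [mapClusterPt_iff_frequently]
    constructor
    · intro hcl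
      have hclosed : IsClosed {p : ℝ × ℝ | 0 ≤ p.1} := isClosed_le continuous_const continuous_fst
      refine ⟨?_, ?_⟩
      · by_contra hcon
        have h1 := hcl {p : ℝ × ℝ | 0 ≤ p.1}ᶜ (hclosed.isOpen_compl.mem_nhds hcon)
        obtain ⟨n, hn⟩ := h1.exists
        exact hn (hbt n)
      · by_contra hcon
        push Not at hcon
        obtain ⟨ε, hε⟩ : ∃ ε, ε = (β + c ^ 2 - 1) / 2 := ⟨_, rfl⟩
        have hε0 : 0 < ε := by linarith
        have hclosed2 : IsClosed {p : ℝ × ℝ | p.1 + p.2 ^ 2 ≤ 1 + ε} :=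
          isClosed_le (continuous_fst.add (continuous_snd.pow 2)) continuous_const
        have h1 := hcl {p : ℝ × ℝ | p.1 + p.2 ^ 2 ≤ 1 + ε}ᶜ (hclosed2.isOpen_compl.mem_nhds (by
          simp only [Set.mem_compl_iff, Set.mem_ofPred_eq, not_le]
          linarith))
        obtain ⟨n, hn1, hn2⟩ := (h1.and_eventually (hup ε hε0)).exists
        exact hn1 hn2
    · rintro ⟨h1, h2⟩ s hs
      obtain ⟨ε, hε, hball⟩ := Metric.mem_nhds_iff.1 hs
      refine (hfreq β c h1 h2 (ε / 2) (by linarith)).mono (fun n hn => hball ?_)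
      rw [Metric.mem_ball, Prod.dist_eq, Real.dist_eq, Real.dist_eq, max_lt_iff]
      constructor <;> linarith [hn.1, hn.2]
  · intro g hg c
    rw [mapClusterPt_iff_frequently]
    constructor
    · intro hcl
      by_contra hcon
      push Not at hcon
      obtain ⟨ε, hε⟩ : ∃ ε, ε = (c ^ 2 - 1) / 2 := ⟨_, rfl⟩
      have hc2 : 1 < c ^ 2 := by
        rw [← sq_abs]
        nlinarith
      have hε0 : 0 < ε := by linarith
      have hclosed2 : IsClosed {p : ℝ | p ^ 2 ≤ 1 + ε} := isClosed_le (continuous_id.pow 2) continuous_const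
      have h1 := hcl {p : ℝ | p ^ 2 ≤ 1 + ε}ᶜ (hclosed2.isOpen_compl.mem_nhds (by
        simp only [Set.mem_compl_iff, Set.mem_ofPred_eq, not_le]
        linarith))
      rw [frequently_inf_principal] at h1
      obtain ⟨n, ⟨_, hn1⟩, hn2⟩ := (h1.and_eventually (hup ε hε0)).exists
      apply hn1
      have := hbt n
      show dv S n ^ 2 ≤ 1 + ε
      linarith
    · intro hc s hs
      obtain ⟨ε, hε, hball⟩ := Metric.mem_nhds_iff.1 hs
      rw [frequently_inf_principal]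
      obtain ⟨c', hc1, hc2, hc3⟩ := exists_rat_near (c := c) (show 0 < ε / 4 by linarith)
      obtain ⟨k, hk⟩ := exists_nat_one_div_lt (show 0 < ε / 4 by linarith)
      have hc'1 : (c' : ℝ) ^ 2 < 1 := by
        rw [sq_lt_one_iff_abs_lt_one]
        by_cases hc0 : c = 0
        · rw [hc0, abs_zero] at hc2
          linarith
        · exact (hc3 hc0).trans_le hc
      refine (freq_of (P := fun m g' => g' = g ∧ |dvn S m g' - c| < ε) hinf ?_).mono ?_
      · filter_upwards [h.fix g c' k hg hc'1] with i h3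
        obtain ⟨m, e1, e2, e3, e4⟩ := h3
        refine ⟨m, g, e1, hg, e3, rfl, ?_⟩
        rw [abs_le] at e4 hc1
        rw [abs_lt]
        constructor <;> linarith [e4.1, e4.2, hc1.1, hc1.2]
      · rintro n ⟨e1, e2⟩
        rw [← dv_eq hinf] at e2
        refine ⟨e1, hball ?_⟩
        rw [Metric.mem_ball, Real.dist_eq]
        exact e2
  · -- the count
    have h1 : Tendsto (fun m : ℕ => 4 * (Real.log (m : ℝ) ^ 2 / (m : ℝ) ^ (1 / 2 : ℝ))) atTop (𝓝 (4 * 0)) := by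
      have h2 := (isLittleO_log_rpow_rpow_atTop (s := 1 / 2) (2 : ℝ) (by norm_num)).tendsto_div_nhds_zero
      have h3 := h2.comp (tendsto_natCast_atTop_atTop (R := ℝ))
      refine Tendsto.const_mul 4 (h3.congr (fun m => ?_))
      simp only [Function.comp_apply]
      congr 1
      exact_mod_cast Real.rpow_natCast (Real.log (m : ℝ)) 2
    rw [mul_zero] at h1
    refine squeeze_zero_norm' ?_ (h1.comp hel)
    filter_upwards [hbd, hnum] with n hn1 hn2
    obtain ⟨h3, h4, h5⟩ := hn1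
    simp only [Function.comp_apply]
    rw [hn2]
    obtain ⟨m, hm⟩ : ∃ m : ℝ, m = el S n := ⟨_, rfl⟩
    obtain ⟨g, hg⟩ : ∃ g : ℝ, g = gp S n := ⟨_, rfl⟩
    obtain ⟨d, hd⟩ : ∃ d : ℝ, d = dv S n := ⟨_, rfl⟩
    rw [← hm, ← hg, ← hd]
    rw [← hm] at h4 h5
    rw [← hg] at h4
    rw [← hd] at h3
    have hg0 : 0 ≤ g := by rw [hg]; exact Nat.cast_nonneg _
    have hm0 : 0 < m := by
      by_contra hcon
      push Not at hcon
      have e0 : 0 ≤ m := by rw [hm]; exact Nat.cast_nonneg _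
      have : m = 0 := le_antisymm hcon e0
      rw [this, Real.log_zero] at h5
      linarith
    have hL0 : 0 < Real.log m := by linarith
    obtain ⟨L, hL⟩ : ∃ L, L = Real.log m := ⟨_, rfl⟩
    rw [← hL] at h4 h5 hL0 ⊢
    rw [← Real.sqrt_eq_rpow]
    obtain ⟨r, hr⟩ : ∃ r, r = √m := ⟨_, rfl⟩
    have hr0 : 0 < r := by rw [hr]; exact Real.sqrt_pos.2 hm0
    have hr2 : r ^ 2 = m := by rw [hr]; exact Real.sq_sqrt hm0.le
    rw [← hr]
    have e1 : √(2 * g * m) ≤ 2 * L * r := by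
      rw [Real.sqrt_le_left (by positivity), mul_pow, hr2]
      have : g * m ≤ 2 * L ^ 2 * m := mul_le_mul_of_nonneg_right h4 hm0.le
      nlinarith
    have e2 : (g * m / L + d * √(2 * g * m)) * L / m - g = d * √(2 * g * m) * L / m := by
      field_simp
      ring
    rw [e2, Real.norm_eq_abs, abs_div, abs_mul, abs_mul, abs_of_pos hL0, abs_of_pos hm0, abs_of_nonneg (Real.sqrt_nonneg _)]
    rw [div_le_iff₀ hm0]
    have e3 : 4 * (L ^ 2 / r) * m = 4 * L ^ 2 * r := by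
      rw [← hr2]
      field_simp
    rw [e3]
    calc |d| * √(2 * g * m) * L ≤ 2 * (2 * L * r) * L := by
          apply mul_le_mul_of_nonneg_right _ hL0.le
          exact mul_le_mul h3 e1 (Real.sqrt_nonneg _) (by norm_num)
      _ = 4 * L ^ 2 * r := by ring
  · -- Brocard
    filter_upwards [hbd, hnum, hel.eventually (ev_pw 64 2 (show (0 : ℝ) < 1 by norm_num)), hel.eventually_ge_atTop 16]
      with n hn1 hn2 hn3 hn4
    obtain ⟨h3, h4, h5⟩ := hn1
    have hn4' : (16 : ℝ) ≤ el S n := by exact_mod_cast hn4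
    have hg1 : (1 : ℝ) ≤ gp S n := by exact_mod_cast gp_pos hinf n
    have hgoal : (4 : ℝ) ≤ NB S n := by
      rw [hn2]
      rw [Real.rpow_one] at hn3
      obtain ⟨m, hm⟩ : ∃ m : ℝ, m = el S n := ⟨_, rfl⟩
      obtain ⟨g, hg⟩ : ∃ g : ℝ, g = gp S n := ⟨_, rfl⟩
      obtain ⟨d, hd⟩ : ∃ d : ℝ, d = dv S n := ⟨_, rfl⟩
      obtain ⟨L, hL⟩ : ∃ L, L = Real.log m := ⟨_, rfl⟩
      rw [← hm, ← hg, ← hd, ← hL]
      rw [← hm, ← hL] at hn3 h5
      rw [← hm] at hn4'
      rw [← hg] at hg1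
      rw [← hd] at h3
      obtain ⟨x, hx⟩ : ∃ x : ℝ, x = g * m := ⟨_, rfl⟩
      rw [show (2 : ℝ) * g * m = 2 * x by rw [hx]; ring, ← hx]
      have hxm : m ≤ x := by rw [hx]; nlinarith
      obtain ⟨r, hr⟩ : ∃ r, r = √x := ⟨_, rfl⟩
      have hx0 : 0 < x := by linarith
      have hr0 : 0 < r := by rw [hr]; exact Real.sqrt_pos.2 hx0
      have hr2 : r ^ 2 = x := by rw [hr]; exact Real.sq_sqrt hx0.le
      have hr4 : 4 ≤ r := by
        refine le_of_sq_le_sq ?_ hr0.le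
        rw [hr2]
        linarith
      have hLr : 8 * L ≤ r := by
        refine le_of_sq_le_sq (?_ : (8 * L) ^ 2 ≤ r ^ 2) hr0.le
        rw [hr2]
        nlinarith
      have e1 : √(2 * x) ≤ 2 * r := by
        rw [Real.sqrt_le_left (by positivity), mul_pow, hr2]
        linarith
      have e2 : 8 * r ≤ x / L := by
        rw [le_div_iff₀ (by linarith), ← hr2]
        nlinarith
      have e3 : -(4 * r) ≤ d * √(2 * x) := by
        have e4 : |d * √(2 * x)| ≤ 4 * r := by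
          rw [abs_mul, abs_of_nonneg (Real.sqrt_nonneg _)]
          calc |d| * √(2 * x) ≤ 2 * (2 * r) := mul_le_mul h3 e1 (Real.sqrt_nonneg _) (by norm_num)
            _ = 4 * r := by ring
        exact (abs_le.1 e4).1
      linarith
    exact_mod_cast hgoal

/-- **Brocard's problem in Cramér's model: the joint law of the gaps and of the numbers of elements between the
squares.** -/
theorem result : IsCramer cramerMeasure cramerSet ∧
    ∀ (Ω : Type) (_ : MeasurableSpace Ω) (μ : Measure Ω) (_ : IsProbabilityMeasure μ) (A : Ω → Set ℕ),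
      IsCramer μ A → ∀ᵐ ω ∂μ, Law (A ω) := by
  refine ⟨isCramer, ?_⟩
  intro Ω _ μ _ A hA
  have h1 : ∀ᵐ ω ∂μ, ∀ k : ℕ, ∀ᶠ m : ℕ in atTop, ∀ g : ℕ, 1 ≤ g → Emp (A ω) m g →
      g / Real.log m ^ 2 + dvn (A ω) m g ^ 2 ≤ 1 + 1 / ((k : ℝ) + 1) := by
    rw [ae_all_iff]
    intro k
    have hk : (0 : ℝ) < 1 / ((k : ℝ) + 1) := by positivity
    refine upper hA hk ?_
    rw [div_le_one (by positivity)]
    linarith [Nat.cast_nonneg (α := ℝ) k]
  have h2 : ∀ᵐ ω ∂μ, ∀ t : (ℚ × ℚ) × ℕ, 0 ≤ t.1.1 → (t.1.1 : ℝ) + (t.1.2 : ℝ) ^ 2 < 1 → ∀ᶠ i : ℕ in atTop,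
      ∃ m, 2 ^ i ≤ m ∧ m < 2 * 2 ^ i ∧ Cons (A ω) m (Gb t.1.1 (2 ^ i)) ∧
      |dvn (A ω) m (Gb t.1.1 (2 ^ i)) - t.1.2| ≤ 1 / ((t.2 : ℝ) + 1) := by
    rw [ae_all_iff]
    rintro ⟨⟨β, c⟩, k⟩
    by_cases hh : 0 ≤ β ∧ (β : ℝ) + (c : ℝ) ^ 2 < 1
    · have hk : (0 : ℝ) < 1 / ((k : ℝ) + 1) := by positivity
      have hβ : (0 : ℝ) ≤ (β : ℝ) := by exact_mod_cast hh.1
      have := lower hA (Gb (β : ℝ)) (c := (c : ℝ)) hβ hh.2 hk (fun K => by unfold Gb; omega)
        (fun δ hδ => Gb_le hβ hδ)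
      filter_upwards [this] with ω hω _ _
      exact hω
    · filter_upwards with ω h3 h4
      exact absurd ⟨h3, h4⟩ hh
  have h3 : ∀ᵐ ω ∂μ, ∀ t : (ℕ × ℚ) × ℕ, 1 ≤ t.1.1 → (t.1.2 : ℝ) ^ 2 < 1 → ∀ᶠ i : ℕ in atTop,
      ∃ m, 2 ^ i ≤ m ∧ m < 2 * 2 ^ i ∧ Cons (A ω) m t.1.1 ∧ |dvn (A ω) m t.1.1 - t.1.2| ≤ 1 / ((t.2 : ℝ) + 1) := by
    rw [ae_all_iff]
    rintro ⟨⟨g, c⟩, k⟩
    by_cases hh : 1 ≤ g ∧ (c : ℝ) ^ 2 < 1
    · have hk : (0 : ℝ) < 1 / ((k : ℝ) + 1) := by positivity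
      have := lower hA (fun _ => g) (β := 0) (c := (c : ℝ)) le_rfl (by linarith [hh.2]) hk (fun K => hh.1)
        (fun δ hδ => by
          filter_upwards [hl.eventually_ge_atTop 1, hl.eventually_ge_atTop (g / δ)] with K e1 e2
          rw [div_le_iff₀ hδ] at e2
          rw [zero_add]
          have e3 : Real.log (K : ℝ) * δ ≤ δ * Real.log K ^ 2 := by nlinarith
          linarith)
      filter_upwards [this] with ω hω _ _
      exact hω
    · filter_upwards with ω h3 h4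
      exact absurd ⟨h3, h4⟩ hh
  filter_upwards [h1, h2, h3] with ω e1 e2 e3
  exact law_of_facts ⟨e1, fun β c k hβ hβc => e2 ((β, c), k) hβ hβc, fun g c k hg hc => e3 ((g, c), k) hg hc⟩

end Pool.Agent.Results.MP_739ba1_nt.GapAndCountLaw
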