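import Pool.Agent.Q197.SP.R739

/-!
# Primes between the squares of consecutive primes: the entropy budget of the asymptotic law of the counts
-/

set_option autoImplicit false

namespace Pool.Agent.Results.MP_739ba1_nt.LawOfCountsBudget

open Finset MeasureTheory Filter Pool.Agent.Q197.WN Pool.Agent.Q120.CL Pool.Agent.Q120.ET Pool.Agent.Q120.TT Pool.Agent.Q197.SP.R739
open scoped Topology

theorem result :
    ∀ z : ℕ → ℕ, Tendsto z atTop atTop → (∀ η : ℝ, 0 < η → ∀ᶠ k : ℕ in atTop, (z k : ℝ) ≤ η * k) →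
    ∀ d : ℕ → ℝ, (∀ k, 0 ≤ d k) → (Summable (fun k : ℕ => d k * k / 2 ^ k) ↔
      ∀ (Ω : Type) [MeasurableSpace Ω] (μ : Measure Ω) [IsProbabilityMeasure μ] (A : Ω → Set ℕ), Near (pr z) B d μ A →
        ∀ᵐ ω ∂μ, Asymp (A ω)) := by
  intro z hz hs
  exact (all_parts.2 z hz hs).2.2.2

end Pool.Agent.Results.MP_739ba1_nt.LawOfCountsBudget
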