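import Pool.Agent.Q197.SP.R739

/-!
# Primes between the squares of consecutive primes: the exact entropy price of the failures, for all random sets
-/

set_option autoImplicit false

namespace Pool.Agent.Results.MP_739ba1_nt.PriceOfFailures

open Finset MeasureTheory Filter Pool.Agent.Q197.WN Pool.Agent.Q120.CL Pool.Agent.Q120.ET Pool.Agent.Q120.TT Pool.Agent.Q197.SP.R739
open scoped Topology

theorem result :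
    ((∀ n : ℕ, 1 ≤ n → 4 ≤ ((Ioo ((Nat.nth Nat.Prime n) ^ 2) ((Nat.nth Nat.Prime (n + 1)) ^ 2)).filter Nat.Prime).card) ↔
      ∀ k : ℕ, 1 ≤ k → bad 3 k {p | p.Prime} = 0) ∧
    ∀ z : ℕ → ℕ, Tendsto z atTop atTop → (∀ η : ℝ, 0 < η → ∀ᶠ k : ℕ in atTop, (z k : ℝ) ≤ η * k) →
    (∀ ε : ℝ, 0 < ε → ∀ (j : ℕ) (Ω : Type) [MeasurableSpace Ω] (μ : Measure Ω) [IsProbabilityMeasure μ] (A : Ω → Set ℕ),
      IsRandomSet A → (∀ᵐ ω ∂μ, ∀ n ∈ A ω, 0 < pr z n) → ∀ᶠ k : ℕ in atTop, ∀ M : ℕ, 1 ≤ M → M ≤ 2 ^ k →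
        (1 - ε) * (M * u k * μ.real {ω | M ≤ bad j k (A ω)}) ≤ 1 + relEnt (pr z) μ A (B k)) ∧
    (∀ ε : ℝ, 0 < ε → ∀ (M : ℕ → ℕ) (q : ℕ → ℝ), Tendsto (fun k : ℕ => (M k : ℝ) * (k : ℝ) ^ 2 / 2 ^ k) atTop (𝓝 0) →
      (∀ k, 0 ≤ q k ∧ q k ≤ 1) →
      ∃ (Ω : Type) (_ : MeasurableSpace Ω) (μ : Measure Ω) (_ : IsProbabilityMeasure μ) (A : Ω → Set ℕ),
        Near (pr z) B (fun k => (1 + ε) * (q k * (M k * u k))) μ A ∧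
        ∀ᶠ k : ℕ in atTop, (1 - ε) * q k ≤ μ.real {ω | M k ≤ bad 0 k (A ω)}) ∧
    (∀ (M : ℕ → ℕ) (d : ℕ → ℝ), (∀ k, 1 ≤ M k) → Tendsto (fun k : ℕ => (M k : ℝ) * (k : ℝ) ^ 2 / 2 ^ k) atTop (𝓝 0) →
      (∀ k, 0 ≤ d k) →
      (∀ j : ℕ, Summable (fun k : ℕ => d k * k / (2 ^ k * M k)) ↔
        ∀ (Ω : Type) [MeasurableSpace Ω] (μ : Measure Ω) [IsProbabilityMeasure μ] (A : Ω → Set ℕ), Near (pr z) B d μ A →
          ∀ᵐ ω ∂μ, ∀ᶠ k : ℕ in atTop, bad j k (A ω) < M k) ∧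
      (¬ Summable (fun k : ℕ => d k * k / (2 ^ k * M k)) →
        ∃ (Ω : Type) (_ : MeasurableSpace Ω) (μ : Measure Ω) (_ : IsProbabilityMeasure μ) (A : Ω → Set ℕ),
          Near (pr z) B d μ A ∧ ∀ᵐ ω ∂μ, ∃ᶠ k : ℕ in atTop, M k ≤ bad 0 k (A ω))) := by
  refine ⟨all_parts.1, fun z hz hs => ?_⟩
  obtain ⟨h1, h2, h3, _⟩ := all_parts.2 z hz hs
  exact ⟨h1, h2, h3⟩

end Pool.Agent.Results.MP_739ba1_nt.PriceOfFailures
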